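import Pool.Agent.R756.WP.Top
import Pool.Agent.R756.WP.Flat

/-!
# The restricted density polynomial Hales-Jewett conjecture for matrix programs over fields

In every dimension the conjecture holds for the families of subsets of `[N]^d` which are supports of
functions computed by oblivious programs of `w × w` matrices over an arbitrary field in which each
cell is read a bounded number of times, in any order (read-`p` oblivious algebraic branching programs
of bounded width), for all families which contain most of such a family, and with width, number of
reads and inverse density tending to infinity. There may be cancellations in the field; the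
nondeterministic branching programs of bounded width are the special case of programs which count
accepting paths over `ℚ`.

The proof uses only that the functions have bounded flattening rank at many disjoint diagonal blocks,
and the theorem is stated for all such functions; for example for the sums of boundedly many products
of functions of one cell (tensors of bounded rank) the density may be exponentially small in `N`.

Proof. Let the flattening of `f` at the block `I^d` (cells in the block against the other cells) have
rank at most `r`. Assume that the section of `supp f` over the contents `y` of the other cells is not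
good, for all `y` in a set `Y`. Choose `r` elements `y_1, ..., y_r` of `Y` whose columns span all
columns. If no contents `u` of the block satisfy `f (u, y) = 0` for all `y` in `Y`, then for each `u`
there is `i` with `f (u, y_i) ≠ 0`. This colours the contents of the block with `r` colours; by the
polynomial Hales-Jewett theorem of Bergelson and Leibman (proved in the library) there are `u` and
`u ∪ γ^d` with the same colour `i`, and the section over `y_i` is good, a contradiction. So some contents `u` of the block are
forbidden over all `y` with a section that is not good. Counting the blocks with forbidden contents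
gives the density and the robust version. For programs, Ramsey's theorem for `2d`-sets of coordinates
(as in the theorem for branching programs of the library) gives diagonal blocks whose cells are read
in boundedly many intervals of time in which no cell of another block is read.
-/

set_option autoImplicit false

namespace Pool.Agent.Results.MP_90b327_co.MatrixPrograms

open Finset Pool.Agent.Y613.PJ Pool.Agent.Y613.RA Pool.Agent.R756.WP

/-- The iterated exponential `2 ^ 2 ^ ... ^ x` with `C` twos. -/
def tower : ℕ → ℕ → ℕ
  | 0, x => x
  | C + 1, x => 2 ^ tower C x

theorem tower_eq (C x : ℕ) : tower C x = RC.tow C x := by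
  induction C with
  | zero => rfl
  | succ C ih => simp only [tower, RC.tow, ih]

/-- For every `d ≥ 1`:

(1) There is `C` such that for all `w` and `p` there are `η > 0`, `lam < 1` and `a` with: if
`N ≥ tower C (a (K + 1))`, the family `F` of subsets of `[N]^d` is decided by a program of matrices of
size at most `w` over a field in which each cell is read at most `p` times, and `F` has more than
`8 lam^K 2^(N^d)` elements, then every family `S` which contains all elements of `F` except for at
most `η |F|` is good: there are `A ∈ S` and a nonempty `γ ⊆ [N]` with `A ∩ γ^d = ∅` and
`A ∪ γ^d ∈ S`.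

(2) There is a function `f` which tends to infinity such that for all `N` every family `S` with
`|S| ≥ 2^(N^d) / f(N)` which is the union of `f(N)` families decided by programs of matrices of size
at most `f(N)`, over any fields, in which each cell is read at most `f(N)` times is good.

(3) For every `r` there are `l`, `η > 0` and `lam < 1` such that: let `I_1, ..., I_b` be disjoint
subsets of `[N]` with `l` elements, and let `f` be a function of the subsets of `[N]^d` with values in
a field whose flattening at `I_k^d` has rank at most `r` for each `k`. If the support `F` of `f` has
more than `8 lam^b 2^(N^d)` elements, then every family `S` which contains all elements of `F` except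
for at most `η |F|` is good.

(4) For every `r` there are `η > 0` and `lam < 1` such that the same holds for all `N`, with more than
`8 lam^N 2^(N^d)` elements, if `f` is a sum of `r` products of functions of one cell.

(5) Each family decided by a nondeterministic branching program of width at most `w` in which each
cell is queried at most at `p` nodes is decided by a program of matrices of size at most `2 w` in
which each cell is read at most `p` times. -/
theorem result (d : ℕ) (hd : 1 ≤ d) :
    (∃ C : ℕ, ∀ w p : ℕ, ∃ (η lam : ℝ) (a : ℕ), 0 < η ∧ 0 < lam ∧ lam < 1 ∧
      ∀ (N K : ℕ) (F S : Finset (Finset (Fin d → Fin N))),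
        tower C (a * (K + 1)) ≤ N → MatDecided d N w p F → 8 * lam ^ K * 2 ^ (N ^ d) < #F →
          (#(F \ S) : ℝ) ≤ η * #F → Good S) ∧
    (∃ f : ℕ → ℕ, Filter.Tendsto f Filter.atTop Filter.atTop ∧
      ∀ (N : ℕ) (G : Fin (f N) → Finset (Finset (Fin d → Fin N)))
        (S : Finset (Finset (Fin d → Fin N))), (∀ i, MatDecided d N (f N) (f N) (G i)) →
        (∀ A, A ∈ S ↔ ∃ i, A ∈ G i) → 2 ^ (N ^ d) ≤ f N * #S → Good S) ∧
    (∀ r : ℕ, ∃ (l : ℕ) (η lam : ℝ), 0 < η ∧ 0 < lam ∧ lam < 1 ∧ ∀ (K : Type) [Field K]
      (N b : ℕ) (I : Fin b → Finset (Fin N)) (f : Finset (Fin d → Fin N) → K)
      (F S : Finset (Finset (Fin d → Fin N))),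
      (∀ k, #(I k) = l) → (∀ j k, j ≠ k → Disjoint (I j) (I k)) →
      (∀ k, FlatRank r (cube d (I k)) f) → (∀ A, A ∈ F ↔ f A ≠ 0) →
      8 * lam ^ b * 2 ^ (N ^ d) < #F → (#(F \ S) : ℝ) ≤ η * #F → Good S) ∧
    (∀ r : ℕ, ∃ (η lam : ℝ), 0 < η ∧ 0 < lam ∧ lam < 1 ∧ ∀ (K : Type) [Field K] (N : ℕ)
      (g : Fin r → (Fin d → Fin N) → Bool → K) (F S : Finset (Finset (Fin d → Fin N))),
      (∀ A, A ∈ F ↔ ∑ i, ∏ c, g i c (decide (c ∈ A)) ≠ 0) →
      8 * lam ^ N * 2 ^ (N ^ d) < #F → (#(F \ S) : ℝ) ≤ η * #F → Good S) ∧
    (∀ (N w p : ℕ) (F : Finset (Finset (Fin d → Fin N))), Decided d N w p F →
      MatDecided d N (2 * w) p F) := by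
  refine ⟨?_, growing' d hd, ?_, products_bound d hd, fun N w p F h => matDecided_of_decided h⟩
  · obtain ⟨C, h⟩ := core' d hd
    refine ⟨C, fun w p => ?_⟩
    obtain ⟨η, lam, a, h1, h2, h3, h4⟩ := h w p
    exact ⟨η, lam, a, h1, h2, h3, fun N K F S hN => h4 N K F S (by rwa [← tower_eq])⟩
  · intro r
    obtain ⟨l, η, lam, h1, h2, h3, h4⟩ := flat_bound d hd r
    refine ⟨l, η, lam, h1, h2, h3, fun K _ N b I f F S g1 g2 g3 g4 g5 g6 =>
      h4 K N b I f F S g1 g2 g3 g4 g5 ?_⟩
    convert g6

end Pool.Agent.Results.MP_90b327_co.MatrixPrograms
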