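import Mathlib
import Pool.Agent.R158.SN.Main
import Pool.Agent.R158.SN.Norm
import Pool.Agent.Results.MP_90b327_co.VectorThreshold
import Pool.Agent.Results.MP_90b327_co.FourCycleThreshold

set_option autoImplicit false

/-!
# Thresholds of sums of parities

The family `F = {A : g A ≥ 1}`, where `g ≤ -1` outside `F` and `g` is a linear combination of
parities with coefficients of total size at most `M`, is for every function `ε` within `ε r` of a
family decided by `r` parities, for some `r` bounded in terms of `M` and `ε`: take the parities with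
coefficient at least `t`. The rest of `g` has mean square at most `t` times the total size of the
coefficients that are used, and the sizes of the coefficients between `t_i` and `t_{i+1}`, for a
rapidly decreasing sequence `t_i`, have sum at most `M`, so that for some `i` this part is small. So
the starting theorem on polynomials and functions with differences of constant sign, in which the
exceptional set may depend on the number of parities only, can be applied.
-/

namespace Pool.Agent.Results.MP_90b327_co.ParityThresholds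

open Finset Filter

/-- `cube d γ` is `γ^d`, the set of all `d`-tuples with entries in `γ`. -/
def cube {N : ℕ} (d : ℕ) (γ : Finset (Fin N)) : Finset (Fin d → Fin N) :=
  Fintype.piFinset (fun _ : Fin d => γ)

/-- A family `S` of subsets of `[N]^d` is good if there are `A ∈ S` and a nonempty `γ ⊆ [N]` with
`A ∩ γ^d = ∅` and `A ∪ γ^d ∈ S`. -/
def Good {N d : ℕ} (S : Finset (Finset (Fin d → Fin N))) : Prop :=
  ∃ A ∈ S, ∃ γ : Finset (Fin N), γ.Nonempty ∧ Disjoint A (cube d γ) ∧ A ∪ cube d γ ∈ S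

/-- The polynomial of degree at most `D` with coefficients `c` and values in the abelian group `G`:
`A ↦ ∑ c T`, the sum over all subsets `T ⊆ A` with at most `D` elements. -/
def poly {E G : Type} [AddCommGroup G] (D : ℕ) (c : Finset E → G) (A : Finset E) : G :=
  ∑ T ∈ A.powerset.filter (fun T => T.card ≤ D), c T

/-- The difference of `h` in direction `e`: `A ↦ h (A ∪ {e}) - h (A \ {e})`. -/
def diff {E : Type} [DecidableEq E] (e : E) (h : Finset E → ℝ) (A : Finset E) : ℝ :=
  h (insert e A) - h (A.erase e)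

/-- All differences of order `k` of `h` have constant sign: for all `e₁, …, e_k` the function
`diff e₁ (… (diff e_k h))` is nowhere negative or nowhere positive (which of the two may depend on
`e₁, …, e_k`). -/
def ConstSign {E : Type} [DecidableEq E] : ℕ → (Finset E → ℝ) → Prop
  | 0, h => (∀ A, 0 ≤ h A) ∨ (∀ A, h A ≤ 0)
  | k + 1, h => ∀ e, ConstSign k (diff e h)

/-- `g` is a linear combination of parities with coefficients of total size at most `M`:
`g A = ∑ c χ (-1)^|A ∩ χ|`, the sum over all sets `χ`, with `∑ |c χ| ≤ M`. There is no bound on the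
number or on the sizes of the sets `χ`. -/
def ParitySum (M : ℝ) {E : Type} [Fintype E] [DecidableEq E] (g : Finset E → ℝ) : Prop :=
  ∃ c : Finset E → ℝ, (∀ A, g A = ∑ χ, c χ * (-1) ^ (A ∩ χ).card) ∧ ∑ χ, |c χ| ≤ M

/-- `F` is a threshold family with coefficients `c`: the sets `A` are classified according to the
signs of `r` real functions `hᵢ`, where for each `i` all differences of some order `j`, `1 ≤ j ≤ k`,
of `hᵢ` have constant sign, and according to the value at `A` of the polynomial of degree at most `D`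
with coefficients `c` and values in `G`; on each class `F` is given by a combination `g` of parities
with coefficients of total size at most `M`, where `g A ≥ 1` for all `A` of this class in `F` and
`g A ≤ -1` for all `A` of this class not in `F`. -/
def Threshold (D k r : ℕ) {G : Type} [AddCommGroup G] (M : ℝ) {d N : ℕ}
    (c : Finset (Fin d → Fin N) → G) (F : Finset (Finset (Fin d → Fin N))) : Prop :=
  ∃ (h : Fin r → Finset (Fin d → Fin N) → ℝ)
    (g : (Fin r → Prop) → G → Finset (Fin d → Fin N) → ℝ),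
    (∀ i, ∃ j, 1 ≤ j ∧ j ≤ k ∧ ConstSign j (h i)) ∧ (∀ σ a, ParitySum M (g σ a)) ∧
    ∀ A, (A ∈ F → 1 ≤ g (fun i => 0 < h i A) (poly D c A) A) ∧
      (A ∉ F → g (fun i => 0 < h i A) (poly D c A) A ≤ -1)

/-- The coefficient of `T` is zero unless any two tuples in `T` have a common entry. -/
def Linked {G : Type} [AddCommGroup G] {d N : ℕ} (c : Finset (Fin d → Fin N) → G) : Prop :=
  ∀ T, c T ≠ 0 → ∀ x ∈ T, ∀ y ∈ T, ∃ i j, x i = y j

/-- The density above which Q1 is proved in the starting files (`d = 1, 2`) and by helper814's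
`FourCycleThreshold` (`d ≥ 3`): `0` for `d = 1`, `0.3223` for `d = 2`, `2^(d-2)/(2^(d-1)+1)` for
`d ≥ 3`. -/
noncomputable def thr (d : ℕ) : ℝ :=
  if d = 1 then 0 else if d = 2 then 3223 / 10000 else (2 : ℝ) ^ (d - 2) / (2 ^ (d - 1) + 1)

lemma constSign_iff {E : Type} [DecidableEq E] (k : ℕ) : ∀ h : Finset E → ℝ, ConstSign k h ↔
    Pool.Agent.TH484.PH.Reg k h := by
  induction k with
  | zero => exact fun h => Iff.rfl
  | succ k ih => exact fun h => forall_congr' fun e => ih _

lemma reg_of {E : Type} [DecidableEq E] {r k : ℕ} {h : Fin r → Finset E → ℝ}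
    (h1 : ∀ i, ∃ j, 1 ≤ j ∧ j ≤ k ∧ ConstSign j (h i)) :
    ∀ i, ∃ j, 1 ≤ j ∧ j ≤ k ∧ Pool.Agent.TH484.PH.Reg j (h i) := fun i => by
  obtain ⟨j, h4, h5, h6⟩ := h1 i
  exact ⟨j, h4, h5, (constSign_iff j _).1 h6⟩

lemma thr_good (d : ℕ) (hd : 1 ≤ d) (δ : ℝ) (hδ : thr d < δ) : ∃ N₀ : ℕ, ∀ N : ℕ, N₀ ≤ N →
    ∀ S : Finset (Finset (Fin d → Fin N)), δ * (2 : ℝ) ^ (N ^ d) < S.card →
      Pool.Agent.TH484.PH.GoodF S := by
  unfold thr at hδ
  by_cases h1 : d = 1
  · rw [if_pos h1] at hδ
    subst h1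
    refine Pool.Agent.Results.MP_90b327_co.VectorThreshold.result 1 le_rfl δ ?_
    unfold Pool.Agent.Results.MP_90b327_co.VectorThreshold.threshold
    norm_num
    exact hδ
  · rw [if_neg h1] at hδ
    by_cases h2 : d = 2
    · rw [if_pos h2] at hδ
      subst h2
      refine Pool.Agent.Results.MP_90b327_co.VectorThreshold.result 2 (by norm_num) δ ?_
      unfold Pool.Agent.Results.MP_90b327_co.VectorThreshold.threshold
      rw [if_pos rfl]
      exact hδ
    · rw [if_neg h2] at hδ
      exact Pool.Agent.Results.MP_90b327_co.FourCycleThreshold.result d (by omega) δ hδ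

lemma absolute (d : ℕ) (hd : 1 ≤ d) (D k r : ℕ) (G : Type) [AddCommGroup G] [Finite G] (M δ : ℝ)
    (hδ : 0 < δ) : ∃ ε : ℝ, 0 < ε ∧ ∃ N₀ : ℕ, ∀ N : ℕ, N₀ ≤ N →
      ∀ (c : Finset (Fin d → Fin N) → G) (F S : Finset (Finset (Fin d → Fin N))),
        Threshold D k r M c F → δ * (2 : ℝ) ^ (N ^ d) ≤ F.card →
          ((F \ S).card : ℝ) ≤ ε * (2 : ℝ) ^ (N ^ d) → Good S := by
  obtain ⟨ε, hε, N₀, hN₀⟩ := Pool.Agent.R158.SN.absolute d hd D k r G (max M 0) δ
    (le_max_right _ _) hδ
  refine ⟨ε, hε, N₀, fun N hN c F S hF hFc hFS => ?_⟩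
  obtain ⟨h, g, h1, h2, h3⟩ := hF
  exact hN₀ N hN h c g F S (reg_of h1)
    (fun σ a => Pool.Agent.R158.SN.Spec.mono (h2 σ a) (le_max_left _ _)) h3 hFc hFS

lemma relative (d : ℕ) (hd : 1 ≤ d) (D k r : ℕ) (G : Type) [AddCommGroup G] [Finite G]
    (M δ θ : ℝ) (hδ : 0 < δ) (hθ : thr d < θ) : ∃ N₀ : ℕ, ∀ N : ℕ, N₀ ≤ N →
      ∀ (c : Finset (Fin d → Fin N) → G) (F S : Finset (Finset (Fin d → Fin N))), Linked c →
        Threshold D k r M c F → δ * (2 : ℝ) ^ (N ^ d) ≤ F.card →
          θ * F.card ≤ (F ∩ S).card → Good S := by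
  obtain ⟨N₀, hN₀⟩ := Pool.Agent.R158.SN.relative d hd (thr d) (thr_good d hd) D k r G (max M 0) δ
    θ (le_max_right _ _) hδ hθ
  refine ⟨N₀, fun N hN c F S hc hF hFc hFS => ?_⟩
  obtain ⟨h, g, h1, h2, h3⟩ := hF
  exact hN₀ N hN h c g F S (reg_of h1) hc
    (fun σ a => Pool.Agent.R158.SN.Spec.mono (h2 σ a) (le_max_left _ _)) h3 hFc hFS

lemma threshold_of {d N : ℕ} {M : ℝ} {g : Finset (Fin d → Fin N) → ℝ}
    {F : Finset (Finset (Fin d → Fin N))} (hg : ParitySum M g)
    (hF : ∀ A, (A ∈ F → 1 ≤ g A) ∧ (A ∉ F → g A ≤ -1)) :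
    Threshold 0 0 0 M (fun _ : Finset (Fin d → Fin N) => ()) F :=
  ⟨fun i => i.elim0, fun _ _ => g, fun i => i.elim0, fun _ _ => hg, hF⟩

lemma slow (d : ℕ) (hd : 1 ≤ d) : ∃ ω : ℕ → ℝ, Tendsto ω atTop atTop ∧
    ∀ (N : ℕ) (g : Finset (Fin d → Fin N) → ℝ) (F : Finset (Finset (Fin d → Fin N))),
      ParitySum (ω N) g → (∀ A, (A ∈ F → 1 ≤ g A) ∧ (A ∉ F → g A ≤ -1)) →
        (2 : ℝ) ^ (N ^ d) ≤ ω N * F.card → Good F := by
  classical
  have key : ∀ n : ℕ, ∃ N₀ : ℕ, ∀ N : ℕ, N₀ ≤ N →
      ∀ (g : Finset (Fin d → Fin N) → ℝ) (F : Finset (Finset (Fin d → Fin N))),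
      ParitySum n g → (∀ A, (A ∈ F → 1 ≤ g A) ∧ (A ∉ F → g A ≤ -1)) →
        (2 : ℝ) ^ (N ^ d) ≤ n * F.card → Good F := by
    intro n
    obtain ⟨ε, hε, N₀, hN₀⟩ := absolute d hd 0 0 0 Unit n (1 / (n + 1)) (by positivity)
    refine ⟨N₀, fun N hN g F hg hF hFc => ?_⟩
    refine hN₀ N hN (fun _ => ()) F F (threshold_of hg hF) ?_ ?_
    · rw [one_div, inv_mul_le_iff₀ (by positivity)]
      refine hFc.trans (mul_le_mul_of_nonneg_right (by linarith) (Nat.cast_nonneg _))
    · rw [sdiff_self, bot_eq_empty, card_empty, Nat.cast_zero]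
      positivity
  choose N₀ hN₀ using key
  set P : ℕ → ℕ → Prop := fun N n => n = 0 ∨ ((range (n + 1)).sup N₀ ≤ N) with hP
  refine ⟨fun N => ((Nat.findGreatest (P N) N : ℕ) : ℝ), ?_, ?_⟩
  · refine tendsto_natCast_atTop_atTop.comp ?_
    refine tendsto_atTop.2 fun b => ?_
    filter_upwards [eventually_ge_atTop (max b ((range (b + 1)).sup N₀))] with N hN
    exact Nat.le_findGreatest ((le_max_left _ _).trans hN) (Or.inr ((le_max_right _ _).trans hN))
  · intro N g F hg hF hFc
    have h1 : P N (Nat.findGreatest (P N) N) :=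
      Nat.findGreatest_spec (P := P N) (m := 0) (Nat.zero_le _) (Or.inl rfl)
    rcases h1 with h1 | h1
    · beta_reduce at hFc
      rw [h1, Nat.cast_zero, zero_mul] at hFc
      have : (0 : ℝ) < 2 ^ (N ^ d) := by positivity
      linarith
    · exact hN₀ _ N ((le_sup (f := N₀) (self_mem_range_succ _)).trans h1) g F hg hF hFc

/-- Let `d ≥ 1`.
(1) Threshold families of positive density, with arbitrary polynomials, and the families which
contain almost all of such a family are good.
(2) If the coefficients are linked, already the families which contain more than the proportion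
`thr d` of a threshold family of positive density are good.
(3) There is a function `ω` tending to infinity for which all families `F` in `[N]^d` of density at
least `1 / ω N` that are given, with the margins `1` and `-1`, by a combination of parities with
coefficients of total size at most `ω N` are good.
(4) Each family which is a Boolean combination of `m` affine subspaces of `P([N]^d) = 𝔽₂^(N^d)`, of
arbitrary codimensions, is a threshold family with `D = k = r = 0` and `M = 2 * 4 ^ m + 1`.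
(5) Each family whose indicator function has Fourier coefficients of total size at most `M` is a
threshold family with `D = k = r = 0` and bound `2 * M + 1`. -/
theorem result : ∀ d : ℕ, 1 ≤ d →
    (∀ (D k r : ℕ) (G : Type) [AddCommGroup G] [Finite G] (M δ : ℝ), 0 < δ →
      ∃ ε : ℝ, 0 < ε ∧ ∃ N₀ : ℕ, ∀ N : ℕ, N₀ ≤ N →
        ∀ (c : Finset (Fin d → Fin N) → G) (F S : Finset (Finset (Fin d → Fin N))),
          Threshold D k r M c F → δ * (2 : ℝ) ^ (N ^ d) ≤ F.card →
            ((F \ S).card : ℝ) ≤ ε * (2 : ℝ) ^ (N ^ d) → Good S) ∧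
    (∀ (D k r : ℕ) (G : Type) [AddCommGroup G] [Finite G] (M δ θ : ℝ), 0 < δ → thr d < θ →
      ∃ N₀ : ℕ, ∀ N : ℕ, N₀ ≤ N →
        ∀ (c : Finset (Fin d → Fin N) → G) (F S : Finset (Finset (Fin d → Fin N))), Linked c →
          Threshold D k r M c F → δ * (2 : ℝ) ^ (N ^ d) ≤ F.card →
            θ * F.card ≤ (F ∩ S).card → Good S) ∧
    (∃ ω : ℕ → ℝ, Tendsto ω atTop atTop ∧
      ∀ (N : ℕ) (g : Finset (Fin d → Fin N) → ℝ) (F : Finset (Finset (Fin d → Fin N))),
        ParitySum (ω N) g → (∀ A, (A ∈ F → 1 ≤ g A) ∧ (A ∉ F → g A ≤ -1)) →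
          (2 : ℝ) ^ (N ^ d) ≤ ω N * F.card → Good F) ∧
    (∀ (N m : ℕ) (Φ : Fin m → Finset (Finset (Fin d → Fin N)))
      (b : Fin m → Finset (Fin d → Fin N) → Prop) (R : (Fin m → Prop) → Prop)
      (F : Finset (Finset (Fin d → Fin N))),
      (∀ A, A ∈ F ↔ R (fun i => ∀ χ ∈ Φ i, (Even (A ∩ χ).card ↔ b i χ))) →
        Threshold 0 0 0 (2 * 4 ^ m + 1) (fun _ : Finset (Fin d → Fin N) => ()) F) ∧
    (∀ (N : ℕ) (M : ℝ) (g : Finset (Fin d → Fin N) → ℝ) (F : Finset (Finset (Fin d → Fin N))),
      ParitySum M g → (∀ A, g A = if A ∈ F then 1 else 0) →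
        Threshold 0 0 0 (2 * M + 1) (fun _ : Finset (Fin d → Fin N) => ()) F) := by
  classical
  intro d hd
  refine ⟨fun D k r G _ _ M δ hδ => absolute d hd D k r G M δ hδ,
    fun D k r G _ _ M δ θ hδ hθ => relative d hd D k r G M δ θ hδ hθ, slow d hd,
    fun N m Φ b R F hF => ?_, fun N M g F hg hF => ?_⟩
  · refine threshold_of (Pool.Agent.R158.SN.spec_combination m Φ b R) fun A => ⟨fun hA => ?_,
      fun hA => ?_⟩
    · rw [if_pos ((hF A).1 hA)]
    · rw [if_neg (fun h => hA ((hF A).2 h))]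
  · have h1 := (Pool.Agent.R158.SN.Spec.smul hg 2).add
      (Pool.Agent.R158.SN.spec_const (E := Fin d → Fin N) (-1))
    have h2 : Pool.Agent.R158.SN.Spec (2 * M + 1) (fun A => 2 * g A + -1) := by
      refine h1.mono (le_of_eq ?_)
      rw [abs_of_pos (by norm_num : (0 : ℝ) < 2), abs_neg, abs_one]
    refine threshold_of h2 fun A => ⟨fun hA => ?_, fun hA => ?_⟩
    · rw [hF A, if_pos hA]
      norm_num
    · rw [hF A, if_neg hA]
      norm_num

end Pool.Agent.Results.MP_90b327_co.ParityThresholds
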