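import Mathlib
import Pool.Agent.R535.SP.Forms
import Pool.Agent.Results.MP_90b327_co.FourCycleThreshold

set_option autoImplicit false

/-!
# Containers, counting and sparse random families for the restricted density polynomial Hales-Jewett conjecture

A family `S` of subsets of `[N]^d` is good if it contains `A` and `A ∪ γ^d` for some nonempty `γ ⊆ [N]`
with `A ∩ γ^d = ∅`. Let `δ ≥ 0`. We show that the following are equivalent (for each `d ≥ 1`):

1. for every density `δ' > δ` there is one `N` for which all families of density above `δ'` are good;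
2. for every `δ' > δ` this holds for all large `N`;
3. (containers) for every `δ' > δ` and every `b`, for `N` large, every family which is not good is
   contained in `T ∪ F T` for one of its subfamilies `T` with at most `2^(N^d) / N^b` members, where `F T`
   has at most `δ' 2^(N^d)` members and depends on `T` only;
4. (counting) for every `δ' > δ`, for `N` large, at most `2^(δ' 2^(N^d))` families are not good;
5. (sparse random families) for every `δ' > δ` there is `c > 0` such that for every `t`, for `N` large and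
   `N^(-t) ≤ p ≤ 1`, the `p`-random family `R` of subsets of `[N]^d` has the property that ALL `S ⊆ R` with
   `|S| ≥ δ' p 2^(N^d)` are good, with probability at least `1 - exp (- c p 2^(N^d))`;
6. for every `δ' > δ` and every `K` there are one `N` and one `p` with `p 2^(N^d) ≥ K` such that the property
   of `R` in 5. has probability at least `1 / 2`.

They hold for `δ = known d`: `0` for `d = 1`, `0.3223` for `d = 2`, `2^(d-2)/(2^(d-1)+1)` for `d ≥ 3`. The
question is whether they hold for `δ = 0` and all `d`. So the question is equivalent to: for every `d` only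
`2^(o(2^(N^d)))` families of subsets of `[N]^d` are not good; and to its version for random families as
sparse as `N^(-t)`, for every `t`.

The proof: by the starting theorem `Universality` families above the critical density contain pairs
`A, A ∪ γ^d` for which `γ` is a union of blocks of size `b + 1`; by supersaturation they contain a set `A`
with at least `c N^(b+1)` partners `A ∪ γ^d` in the family; then the graph container algorithm of
Kleitman and Winston is applied. In 5. the fingerprints are so small that the union bound works for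
`p ≥ N^(-t)`.
-/

namespace Pool.Agent.Results.MP_90b327_co.SparseRandomFamilies

open Finset

/-- `cube d γ` is `γ^d`, the set of all `d`-tuples with entries in `γ`. -/
def cube {N : ℕ} (d : ℕ) (γ : Finset (Fin N)) : Finset (Fin d → Fin N) :=
  Fintype.piFinset (fun _ : Fin d => γ)

/-- A family `S` of subsets of `[N]^d` is good if there are `A ∈ S` and a nonempty `γ ⊆ [N]` with
`A ∩ γ^d = ∅` and `A ∪ γ^d ∈ S`. -/
def Good {N d : ℕ} (S : Finset (Finset (Fin d → Fin N))) : Prop :=
  ∃ A ∈ S, ∃ γ : Finset (Fin N), γ.Nonempty ∧ Disjoint A (cube d γ) ∧ A ∪ cube d γ ∈ S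

/-- The statement of Q1. -/
def Q1 : Prop := ∀ d : ℕ, 1 ≤ d → ∀ δ : ℝ, 0 < δ → δ < 1 → ∃ N : ℕ, 1 ≤ N ∧
  ∀ S : Finset (Finset (Fin d → Fin N)), δ * 2 ^ (N ^ d) < S.card → Good S

/-- For every density above `δ` there is one `N` for which all families of that density are
good. -/
def OneSize (d : ℕ) (δ : ℝ) : Prop :=
  ∀ δ' : ℝ, δ < δ' → ∃ N : ℕ, ∀ S : Finset (Finset (Fin d → Fin N)),
    δ' * 2 ^ (N ^ d) < S.card → Good S

/-- The same for all large `N`. -/
def Uniform (d : ℕ) (δ : ℝ) : Prop :=
  ∀ δ' : ℝ, δ < δ' → ∃ N₀ : ℕ, ∀ N : ℕ, N₀ ≤ N → ∀ S : Finset (Finset (Fin d → Fin N)),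
    δ' * 2 ^ (N ^ d) < S.card → Good S

/-- For every `δ' > δ` and every `b`, if `N` is large every family `S` which is not good contains a
family `T` with at most `2^(N^d) / N^b` members such that `S ⊆ T ∪ F T`, where `F T` has at most
`δ' 2^(N^d)` members and depends on `T` only. -/
def Containers (d : ℕ) (δ : ℝ) : Prop :=
  ∀ δ' : ℝ, δ < δ' → ∀ b : ℕ, ∃ N₀ : ℕ, ∀ N : ℕ, N₀ ≤ N →
    ∃ F : Finset (Finset (Fin d → Fin N)) → Finset (Finset (Fin d → Fin N)),
      (∀ T, ((F T).card : ℝ) ≤ δ' * 2 ^ (N ^ d)) ∧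
      ∀ S : Finset (Finset (Fin d → Fin N)), ¬ Good S →
        ∃ T ⊆ S, (T.card : ℝ) * (N : ℝ) ^ b ≤ 2 ^ (N ^ d) ∧ S ⊆ T ∪ F T

open Classical in
/-- The number of families of subsets of `[N]^d` that are not good. -/
noncomputable def numFree (d N : ℕ) : ℕ :=
  ((univ : Finset (Finset (Finset (Fin d → Fin N)))).filter fun S => ¬ Good S).card

/-- For every `δ' > δ` and `N` large there are at most `2^(δ' 2^(N^d))` families of subsets of `[N]^d`
that are not good. -/
def Counting (d : ℕ) (δ : ℝ) : Prop :=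
  ∀ δ' : ℝ, δ < δ' → ∃ N₀ : ℕ, ∀ N : ℕ, N₀ ≤ N →
    (numFree d N : ℝ) ≤ (2 : ℝ) ^ (δ' * 2 ^ (N ^ d))

open Classical in
/-- The probability that the `p`-random family `R` (each of the `2^(N^d)` subsets of `[N]^d` is a
member with probability `p`, independently) contains a family `S` which is not good and has at least
`a` members. -/
noncomputable def probFree (d N : ℕ) (p a : ℝ) : ℝ :=
  ∑ R ∈ (univ : Finset (Finset (Finset (Fin d → Fin N)))).filter
      (fun R => ∃ S ⊆ R, ¬ Good S ∧ a ≤ (S.card : ℝ)),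
    p ^ R.card * (1 - p) ^ (2 ^ (N ^ d) - R.card)

/-- For every `δ' > δ` there is `c > 0` such that for every `t`, for `N` large and `N^(-t) ≤ p ≤ 1`, with
probability at least `1 - exp (- c p 2^(N^d))` all the subfamilies of the `p`-random family with at
least `δ' p 2^(N^d)` members are good. -/
def Sparse (d : ℕ) (δ : ℝ) : Prop :=
  ∀ δ' : ℝ, δ < δ' → ∃ c : ℝ, 0 < c ∧ ∀ t : ℕ, ∃ N₀ : ℕ, ∀ N : ℕ, N₀ ≤ N → ∀ p : ℝ,
    1 / (N : ℝ) ^ t ≤ p → p ≤ 1 →
      probFree d N p (δ' * (p * 2 ^ (N ^ d))) ≤ Real.exp (-(c * (p * 2 ^ (N ^ d))))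

/-- For every `δ' > δ` and every `K` there are one `N` and one `p` with `p 2^(N^d) ≥ K` such that, with
probability at least `1 / 2`, all the subfamilies of the `p`-random family with at least `δ' p 2^(N^d)`
members are good. -/
def SomeSparse (d : ℕ) (δ : ℝ) : Prop :=
  ∀ δ' : ℝ, δ < δ' → ∀ K : ℝ, ∃ (N : ℕ) (p : ℝ), 0 ≤ p ∧ p ≤ 1 ∧ K ≤ p * 2 ^ (N ^ d) ∧
    probFree d N p (δ' * (p * 2 ^ (N ^ d))) ≤ 1 / 2

/-- The density above which families are known to be good: `0` for `d = 1`, `0.3223` for `d = 2` and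
`2^(d-2)/(2^(d-1)+1)` for `d ≥ 3`. -/
noncomputable def known (d : ℕ) : ℝ :=
  if d = 1 then 0 else if d = 2 then 3223 / 10000 else (2 : ℝ) ^ (d - 2) / (2 ^ (d - 1) + 1)

theorem tfae (d : ℕ) (hd : 1 ≤ d) (δ : ℝ) (hδ : 0 ≤ δ) :
    List.TFAE [OneSize d δ, Uniform d δ, Containers d δ, Counting d δ, Sparse d δ,
      SomeSparse d δ] := by
  have hU := (Universality.result d hd).1 δ
  tfae_have 1 → 3 := fun h => R535.SP.containers_of hd hδ ((hU.out 0 2).1 h)
  tfae_have 3 → 2 := fun h => R535.SP.one_of_containers hδ h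
  tfae_have 2 → 1 := fun h => (hU.out 1 0).1 h
  tfae_have 3 → 4 := fun h => R535.SP.counting_of hδ h
  tfae_have 4 → 2 := fun h => R535.SP.uniform_of_counting h
  tfae_have 3 → 5 := fun h => R535.SP.sparse_of hδ h
  tfae_have 5 → 6 := fun h => R535.SP.some_of_sparse hd h
  tfae_have 6 → 1 := fun h => R535.SP.one_of_some hδ h
  tfae_finish

theorem known_uniform (d : ℕ) (hd : 1 ≤ d) : 0 ≤ known d ∧ Uniform d (known d) := by
  unfold known
  by_cases h1 : d = 1
  · subst h1
    rw [if_pos rfl]
    have h := (Universality.result 1 le_rfl).2.1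
    have h2 : Universality.proved 1 = 0 := by
      unfold Universality.proved
      norm_num
    rw [h2] at h
    exact ⟨le_rfl, (((Universality.result 1 le_rfl).1 0).out 2 1).1 h⟩
  · rw [if_neg h1]
    by_cases h2 : d = 2
    · subst h2
      rw [if_pos rfl]
      have h := (Universality.result 2 hd).2.1
      have h3 : Universality.proved 2 = 3223 / 10000 := by
        unfold Universality.proved
        norm_num
      rw [h3] at h
      exact ⟨by norm_num, (((Universality.result 2 hd).1 _).out 2 1).1 h⟩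
    · rw [if_neg h2]
      exact ⟨by positivity, fun δ' hδ' => FourCycleThreshold.result d (by omega) δ' hδ'⟩

theorem q1_iff : Q1 ↔ ∀ d : ℕ, 1 ≤ d → OneSize d 0 := by
  constructor
  · intro h d hd δ' hδ'
    by_cases h1 : δ' < 1
    · obtain ⟨N, -, hN⟩ := h d hd δ' hδ' h1
      exact ⟨N, hN⟩
    · refine ⟨1, fun S hS => ?_⟩
      have h2 := card_le_univ S
      rw [Fintype.card_finset, Fintype.card_fun, Fintype.card_fin, Fintype.card_fin] at h2
      have h3 : (S.card : ℝ) ≤ 2 ^ (1 ^ d) := by exact_mod_cast h2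
      have h4 : (0 : ℝ) < 2 ^ (1 ^ d) := by positivity
      nlinarith [not_lt.1 h1]
  · intro h d hd δ hδ _
    have hU : Uniform d 0 := ((tfae d hd 0 le_rfl).out 0 1).1 (h d hd)
    obtain ⟨N₀, hN₀⟩ := hU δ hδ
    exact ⟨max N₀ 1, le_max_right _ _, hN₀ _ (le_max_left _ _)⟩

/-- **Containers, counting and sparse random families.** -/
theorem result :
    (∀ d : ℕ, 1 ≤ d → ∀ δ : ℝ, 0 ≤ δ →
      List.TFAE [OneSize d δ, Uniform d δ, Containers d δ, Counting d δ, Sparse d δ,
        SomeSparse d δ]) ∧
    (∀ d : ℕ, 1 ≤ d →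
      Containers d (known d) ∧ Counting d (known d) ∧ Sparse d (known d)) ∧
    List.TFAE [Q1, ∀ d : ℕ, 1 ≤ d → Counting d 0, ∀ d : ℕ, 1 ≤ d → Sparse d 0,
      ∀ d : ℕ, 1 ≤ d → SomeSparse d 0] := by
  refine ⟨tfae, fun d hd => ?_, ?_⟩
  · obtain ⟨h0, h1⟩ := known_uniform d hd
    have h := tfae d hd (known d) h0
    exact ⟨(h.out 1 2).1 h1, (h.out 1 3).1 h1, (h.out 1 4).1 h1⟩
  · tfae_have 1 ↔ 2 := by
      rw [q1_iff]
      exact forall_congr' fun d => forall_congr' fun hd => (tfae d hd 0 le_rfl).out 0 3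
    tfae_have 1 ↔ 3 := by
      rw [q1_iff]
      exact forall_congr' fun d => forall_congr' fun hd => (tfae d hd 0 le_rfl).out 0 4
    tfae_have 1 ↔ 4 := by
      rw [q1_iff]
      exact forall_congr' fun d => forall_congr' fun hd => (tfae d hd 0 le_rfl).out 0 5
    tfae_finish

end Pool.Agent.Results.MP_90b327_co.SparseRandomFamilies
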